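import Pool.Agent.V7H51.SC.Inner

/-!
Uncountably many complementary components of the wandering domain are singletons.
-/

set_option autoImplicit false

open Filter Topology Metric Set Polynomial

namespace Pool.Agent.V7H51.SC

open Pool.Agent.TH224.SC
open Pool.Agent.H384R2.Fatou Pool.Agent.W723.MC

namespace Sys

variable {f : ℂ → ℂ} {r s R' : ℕ → ℝ}

/-- finite itineraries -/
theorem itin_fin (h : Sys f r s R') {Λ : ℕ → Bool → Set ℂ}
    (hL : ∀ n b y, ‖y‖ ≤ s (n + 1) → ∃ w ∈ Λ n b, ‖w‖ ≤ s n ∧ f w = y) (b : ℕ → Bool) (j : ℕ) :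
    ∀ n, ∃ x : ℂ, ‖x‖ ≤ s n ∧ ∀ i < j, f^[i] x ∈ Λ (n + i) (b (n + i)) ∧
      ‖f^[i] x‖ ≤ s (n + i) := by
  induction j with
  | zero =>
    intro n
    exact ⟨0, by rw [norm_zero]; exact (h.s_pos n).le, fun i hi => absurd hi (Nat.not_lt_zero i)⟩
  | succ j ih =>
    intro n
    obtain ⟨x', hx's, hx'1⟩ := ih (n + 1)
    obtain ⟨w, hw, hws, hwx⟩ := hL n (b n) x' hx's
    refine ⟨w, hws, ?_⟩
    intro i hi
    rcases i with _ | i
    · exact ⟨hw, hws⟩
    · rw [Function.iterate_succ_apply, hwx]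
      have := hx'1 i (by omega)
      have e : n + 1 + i = n + (i + 1) := by omega
      rwa [e] at this

/-- infinite itineraries -/
theorem itin (h : Sys f r s R') {Λ : ℕ → Bool → Set ℂ} (hLc : ∀ n b, IsClosed (Λ n b))
    (hL : ∀ n b y, ‖y‖ ≤ s (n + 1) → ∃ w ∈ Λ n b, ‖w‖ ≤ s n ∧ f w = y) (b : ℕ → Bool) :
    ∃ x : ℂ, ∀ i, f^[i] x ∈ Λ i (b i) ∧ ‖f^[i] x‖ ≤ s i := by
  set K : ℕ → Set ℂ := fun j => closedBall 0 (s 0) ∩
    ⋂ i ∈ Finset.range j, (f^[i] ⁻¹' (Λ i (b i)) ∩ {x | ‖f^[i] x‖ ≤ s i}) with hK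
  have hci : ∀ i, Continuous f^[i] := fun i => h.hf.continuous.iterate i
  have hcl : ∀ j, IsClosed (K j) := by
    intro j
    apply isClosed_closedBall.inter
    apply isClosed_biInter
    intro i _
    exact ((hLc i (b i)).preimage (hci i)).inter (isClosed_le (hci i).norm continuous_const)
  have hne : ∀ j, (K j).Nonempty := by
    intro j
    obtain ⟨x, hx, hxi⟩ := h.itin_fin hL b j 0
    refine ⟨x, by rwa [mem_closedBall_zero_iff], ?_⟩
    simp only [mem_iInter, Finset.mem_range]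
    intro i hi
    have := hxi i hi
    rw [zero_add] at this
    exact this
  have hmono : ∀ j, K (j + 1) ⊆ K j := by
    intro j x hx
    refine ⟨hx.1, ?_⟩
    have h2 := hx.2
    simp only [mem_iInter, Finset.mem_range] at h2 ⊢
    intro i hi
    exact h2 i (by omega)
  obtain ⟨x, hx⟩ := IsCompact.nonempty_iInter_of_sequence_nonempty_isCompact_isClosed K hmono hne
    ((isCompact_closedBall (0 : ℂ) (s 0)).inter_right (by
      apply isClosed_biInter
      intro i _
      exact ((hLc i (b i)).preimage (hci i)).inter (isClosed_le (hci i).norm continuous_const))) hcl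
  refine ⟨x, fun i => ?_⟩
  have h1 := mem_iInter.1 hx (i + 1)
  have h2 := h1.2
  simp only [mem_iInter, Finset.mem_range] at h2
  exact h2 i (by omega)

/-- points with itineraries that contain infinitely many `true` are components of the complement -/
theorem single (h : Sys f r s R') {Λ : ℕ → Bool → Set ℂ} (hLc : ∀ n b, IsClosed (Λ n b))
    (hLd : ∀ n, Disjoint (Λ n false) (Λ n true))
    (hLs : ∀ n z, ‖z‖ ≤ s n → ‖f z‖ ≤ s (n + 1) → ∃ b, z ∈ Λ n b)
    (hLt : ∀ n, ∀ P : Set ℂ, IsPreconnected P → (∀ z ∈ P, ∀ i < n, ‖f^[i] z‖ < r n / 2) →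
      (∀ z ∈ P, f^[n] z ∈ Λ n true) → ∀ x ∈ P, ∀ y ∈ P, ‖x - y‖ ≤ 1 / 2 ^ n)
    {b : ℕ → Bool} (hb : ∀ n, ∃ i, n ≤ i ∧ b i = true) {x : ℂ}
    (hx : ∀ i, f^[i] x ∈ Λ i (b i) ∧ ‖f^[i] x‖ ≤ s i) :
    x ∈ (U f s 0)ᶜ ∧ connectedComponentIn (U f s 0)ᶜ x = {x} := by
  have hxU : x ∈ (U f s 0)ᶜ := by
    intro hxU
    obtain ⟨k, hk, -⟩ := (h.growth hxU 1).exists
    rw [zero_add, pow_one] at hk
    linarith [(hx k).2]
  refine ⟨hxU, ?_⟩
  set P := connectedComponentIn (U f s 0)ᶜ x with hP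
  have hPp : IsPreconnected P := isPreconnected_connectedComponentIn
  have hxP : x ∈ P := mem_connectedComponentIn hxU
  have hPU : P ⊆ (U f s 0)ᶜ := connectedComponentIn_subset _ _
  have hrs : s 0 + 1 < r 1 := by
    have h1 := h.s_lt_R 0
    have h2 := h.R_lt 0
    have h3 := h.R_big 0
    norm_num at h2
    linarith
  have hPs : ∀ z ∈ P, ‖z‖ ≤ s 0 := by
    intro z hz
    by_contra hcon
    push Not at hcon
    obtain ⟨w, hw, hwt⟩ := cross hPp hxP hz (t := min ‖z‖ (s 0 + 1))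
      (le_min ((hx 0).2.trans hcon.le) ((hx 0).2.trans (by linarith))) (min_le_left _ _)
    apply hPU hw
    apply h.B_U 0
    refine ⟨?_, ?_⟩
    · rw [hwt]
      exact lt_min hcon (by linarith)
    · rw [hwt]
      exact (min_le_right _ _).trans_lt hrs
  have hPi : ∀ z ∈ P, ∀ i, ‖f^[i] z‖ ≤ s i := by
    intro z hz i
    have := h.not_U (hPU hz) ((hPs z hz).trans_lt (by rw [zero_add]; linarith)) i
    rwa [zero_add] at this
  have hPL : ∀ i, ∀ z ∈ P, f^[i] z ∈ Λ i (b i) := by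
    intro i
    have hI : IsPreconnected (f^[i] '' P) := hPp.image _ (h.hf.continuous.iterate i).continuousOn
    have hcov : f^[i] '' P ⊆ Λ i (b i) ∪ Λ i (!b i) := by
      rintro _ ⟨z, hz, rfl⟩
      obtain ⟨b', hb'⟩ := hLs i _ (hPi z hz i) (by
        have := hPi z hz (i + 1)
        rwa [Function.iterate_succ_apply'] at this)
      by_cases h1 : b' = b i
      · rw [h1] at hb'; exact Or.inl hb'
      · have h2 : b' = !b i := by
          cases b' <;> cases hbi : b i <;> simp_all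
        rw [h2] at hb'; exact Or.inr hb'
    have hdis : Disjoint (Λ i (b i)) (Λ i (!b i)) := by
      cases b i
      · exact hLd i
      · exact (hLd i).symm
    intro z hz
    rcases hcov ⟨z, hz, rfl⟩ with h1 | h1
    · exact h1
    · exfalso
      obtain ⟨v, -, hv1, hv2⟩ := isPreconnected_closed_iff.1 hI _ _ (hLc i (b i)) (hLc i (!b i)) hcov
        ⟨f^[i] x, ⟨x, hxP, rfl⟩, (hx i).1⟩ ⟨f^[i] z, ⟨z, hz, rfl⟩, h1⟩
      exact Set.disjoint_left.1 hdis hv1 hv2
  have hsmall : ∀ n, ∀ y ∈ P, ‖y - x‖ ≤ 1 / 2 ^ n := by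
    intro n y hy
    obtain ⟨i, hni, hbi⟩ := hb n
    have h1 := hLt i P hPp (by
      intro z hz k hk
      have h2 := hPi z hz k
      have h3 := h.s_lt_R k
      have h4 := h.R_lt k
      have h5 : r (k + 1) ≤ r i := h.r_mono (by omega)
      linarith) (by
      intro z hz
      have := hPL i z hz
      rwa [hbi] at this) y hy x hxP
    refine h1.trans ?_
    apply one_div_le_one_div_of_le (by positivity)
    exact pow_le_pow_right₀ (by norm_num) hni
  apply Set.Subset.antisymm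
  · intro y hy
    rw [mem_singleton_iff, ← sub_eq_zero, ← norm_le_zero_iff]
    apply ge_of_tendsto' (x := atTop) (f := fun n : ℕ => (1 : ℝ) / 2 ^ n) _
      (fun n => hsmall n y hy)
    have := tendsto_pow_atTop_nhds_zero_of_lt_one (r := (1 / 2 : ℝ)) (by norm_num) (by norm_num)
    refine this.congr fun n => ?_
    rw [one_div_pow]
  · rw [singleton_subset_iff]
    exact hxP

/-- **uncountably many singletons** -/
theorem uncountable (h : Sys f r s R') :
    ¬ {x | x ∈ (U f s 0)ᶜ ∧ connectedComponentIn (U f s 0)ᶜ x = {x}}.Countable := by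
  choose Λ hΛc hΛd hΛ hΛo hΛt using fun m => (h.st m).lam
  set bb : (ℕ → Bool) → ℕ → Bool := fun a i => if i % 2 = 0 then true else a (i / 2) with hbb
  have hex : ∀ a : ℕ → Bool, ∃ x : ℂ, ∀ i, f^[i] x ∈ Λ i (bb a i) ∧ ‖f^[i] x‖ ≤ s i :=
    fun a => h.itin hΛc hΛo (bb a)
  choose X hX using hex
  have hXs : ∀ a, X a ∈ {x | x ∈ (U f s 0)ᶜ ∧ connectedComponentIn (U f s 0)ᶜ x = {x}} := by
    intro a
    refine h.single hΛc hΛd hΛ hΛt (b := bb a) ?_ (hX a)
    intro n
    refine ⟨2 * n, by omega, ?_⟩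
    simp [hbb]
  have hinj : Function.Injective X := by
    intro a a' haa
    funext k
    have h1 := (hX a (2 * k + 1)).1
    have h2 := (hX a' (2 * k + 1)).1
    rw [← haa] at h2
    have e1 : ∀ c : ℕ → Bool, bb c (2 * k + 1) = c k := by
      intro c
      simp only [hbb]
      rw [if_neg (by omega)]
      congr 1
      omega
    rw [e1] at h1 h2
    by_contra hne
    have hd := Set.disjoint_left.1 (hΛd (2 * k + 1))
    cases hak : a k <;> cases hak' : a' k <;> rw [hak] at h1 hne <;> rw [hak'] at h2 hne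
    · exact hne rfl
    · exact hd h1 h2
    · exact hd h2 h1
    · exact hne rfl
  intro hcount
  have h1 : (X '' univ).Countable := hcount.mono (by
    rintro _ ⟨a, -, rfl⟩
    exact hXs a)
  have h2 : (univ : Set (ℕ → Bool)).Countable := Set.countable_of_injective_of_countable_image
    (hinj.injOn) h1
  have h3 : Countable (ℕ → Bool) := Set.countable_univ_iff.1 h2
  classical
  obtain ⟨F, hF⟩ := exists_injective_nat (ℕ → Bool)
  refine Function.cantor_injective (fun S : Set ℕ => F fun n => decide (n ∈ S)) ?_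
  intro S T hST
  have h4 := hF hST
  ext n
  have h5 := congrFun h4 n
  simpa using h5

end Sys

end Pool.Agent.V7H51.SC
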