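import Pool.Agent.V7H51.SC.Dyn
import Pool.Agent.TH224.SC.Defs

/-!
Infinite inner connectivity.
-/

set_option autoImplicit false

open Filter Topology Metric Set Polynomial

namespace Pool.Agent.V7H51.SC

open Pool.Agent.TH224.SC

open Pool.Agent.H384R2.Fatou Pool.Agent.W723.MC

namespace Sys

variable {f : ℂ → ℂ} {r s R' : ℕ → ℝ}

/-- marked orbits -/
theorem marked (h : Sys f r s R') {Λ : ℕ → Bool → Set ℂ}
    (hL : ∀ n b y, ‖y‖ ≤ s (n + 1) → ∃ w ∈ Λ n b, ‖w‖ ≤ s n ∧ f w = y) (j : ℕ) :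
    ∀ n, ∃ x : ℂ, ‖x‖ ≤ s n ∧ (∀ i < j, f^[i] x ∈ Λ (n + i) false) ∧ f^[j] x ∈ Λ (n + j) true ∧
      f^[j + 1] x = 0 := by
  induction j with
  | zero =>
    intro n
    obtain ⟨w, hw, hws, hw0⟩ := hL n true 0 (by rw [norm_zero]; exact (h.s_pos _).le)
    exact ⟨w, hws, fun i hi => absurd hi (Nat.not_lt_zero i), hw, hw0⟩
  | succ j ih =>
    intro n
    obtain ⟨x', hx's, hx'1, hx'2, hx'3⟩ := ih (n + 1)
    obtain ⟨w, hw, hws, hwx⟩ := hL n false x' hx's
    refine ⟨w, hws, ?_, ?_, ?_⟩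
    · intro i hi
      rcases i with _ | i
      · exact hw
      · rw [Function.iterate_succ_apply, hwx]
        have := hx'1 i (by omega)
        have e : n + 1 + i = n + (i + 1) := by omega
        rwa [e] at this
    · rw [Function.iterate_succ_apply, hwx]
      have e : n + 1 + j = n + (j + 1) := by omega
      rwa [e] at hx'2
    · rw [Function.iterate_succ_apply, hwx]
      exact hx'3

/-- infinitely many complementary components inside -/
theorem holes (h : Sys f r s R') (n : ℕ) {ρ : ℝ} (h1 : s n < ρ) (h2 : ρ < r (n + 1)) :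
    (SphereHoles (U f s n ∩ ball 0 ρ)).Infinite := by
  choose Λ hΛc hΛd hΛ hΛo _ using fun m => (h.st m).lam
  have hmk := fun j => h.marked hΛo j n
  choose x hx1 hx2 hx3 hx4 using hmk
  set A : Set (OnePoint ℂ) := ((↑) : ℂ → OnePoint ℂ) '' (U f s n ∩ ball 0 ρ) with hA
  have hxA : ∀ j, ((x j : ℂ) : OnePoint ℂ) ∈ Aᶜ := by
    rintro j ⟨z, hz, hzx⟩
    have : z = x j := OnePoint.coe_injective hzx
    rw [this] at hz
    exact h.not_U_of_hits (hx4 j) hz.1
  -- separation
  have hsep : ∀ j k, j < k → ((x k : ℂ) : OnePoint ℂ) ∉ connectedComponentIn Aᶜ (x j : OnePoint ℂ) := by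
    intro j k hjk hmem
    set C := connectedComponentIn Aᶜ (x j : OnePoint ℂ) with hC
    have hCp : IsPreconnected C := isPreconnected_connectedComponentIn
    have hCA : C ⊆ Aᶜ := connectedComponentIn_subset _ _
    have hxjC : ((x j : ℂ) : OnePoint ℂ) ∈ C := mem_connectedComponentIn (hxA j)
    set D0 : Set (OnePoint ℂ) := ((↑) : ℂ → OnePoint ℂ) '' closedBall 0 (s n) with hD0
    set D1 : Set (OnePoint ℂ) := (((↑) : ℂ → OnePoint ℂ) '' ball 0 ρ)ᶜ with hD1
    have hD0c : IsClosed D0 :=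
      ((isCompact_closedBall (0 : ℂ) (s n)).image OnePoint.continuous_coe).isClosed
    have hD1c : IsClosed D1 :=
      (OnePoint.isOpenEmbedding_coe.isOpenMap _ isOpen_ball).isClosed_compl
    have hcov : C ⊆ D0 ∪ D1 := by
      intro w hw
      by_cases hw1 : w ∈ D1
      · exact Or.inr hw1
      · left
        have hw2 : w ∈ ((↑) : ℂ → OnePoint ℂ) '' ball 0 ρ := by
          by_contra h3
          exact hw1 h3
        obtain ⟨z, hz, rfl⟩ := hw2
        refine ⟨z, ?_, rfl⟩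
        rw [mem_closedBall_zero_iff]
        by_contra h3
        push Not at h3
        have hz' := hz
        rw [mem_ball_zero_iff] at hz'
        exact hCA hw ⟨z, ⟨h.B_U n ⟨h3, hz'.trans h2⟩, hz⟩, rfl⟩
    have hdisj : Disjoint D0 D1 := by
      rw [Set.disjoint_left]
      rintro _ ⟨z, hz, rfl⟩ h3
      apply h3
      refine ⟨z, ?_, rfl⟩
      rw [mem_closedBall_zero_iff] at hz
      rw [mem_ball_zero_iff]
      linarith
    have hCD0 : C ⊆ D0 := by
      have h3 := isPreconnected_closed_iff.1 hCp D0 D1 hD0c hD1c hcov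
        ⟨_, hxjC, ⟨x j, by rw [mem_closedBall_zero_iff]; exact hx1 j, rfl⟩⟩
      intro w hw
      rcases hcov hw with h4 | h4
      · exact h4
      · obtain ⟨v, -, hv1, hv2⟩ := h3 ⟨w, hw, h4⟩
        exact absurd hv2 (Set.disjoint_left.1 hdisj hv1)
    -- back to the plane
    set P : Set ℂ := ((↑) : ℂ → OnePoint ℂ) ⁻¹' C with hP
    have hPC : ((↑) : ℂ → OnePoint ℂ) '' P = C := by
      rw [hP, image_preimage_eq_inter_range]
      apply inter_eq_left.2
      intro w hw
      obtain ⟨z, -, rfl⟩ := hCD0 hw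
      exact ⟨z, rfl⟩
    have hPp : IsPreconnected P := by
      rw [← OnePoint.isOpenEmbedding_coe.isInducing.isPreconnected_image, hPC]
      exact hCp
    have hPs : ∀ z ∈ P, ∀ i, ‖f^[i] z‖ ≤ s (n + i) := by
      intro z hz i
      obtain ⟨w, hw, hwz⟩ := hCD0 hz
      have : w = z := OnePoint.coe_injective hwz
      rw [this, mem_closedBall_zero_iff] at hw
      apply h.not_U _ (hw.trans_lt (h.s_lt_r n))
      intro hzU
      apply hCA hz
      exact ⟨z, ⟨hzU, by rw [mem_ball_zero_iff]; linarith⟩, rfl⟩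
    have hI : IsPreconnected (f^[j] '' P) :=
      hPp.image _ (h.hf.continuous.iterate j).continuousOn
    have hIcov : f^[j] '' P ⊆ Λ (n + j) false ∪ Λ (n + j) true := by
      rintro _ ⟨z, hz, rfl⟩
      have h3 := hPs z hz j
      have h4 := hPs z hz (j + 1)
      rw [Function.iterate_succ_apply'] at h4
      obtain ⟨b, hb⟩ := hΛ (n + j) _ h3 h4
      cases b
      · exact Or.inl hb
      · exact Or.inr hb
    obtain ⟨v, -, hv1, hv2⟩ := isPreconnected_closed_iff.1 hI _ _ (hΛc _ false) (hΛc _ true) hIcov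
      ⟨f^[j] (x k), ⟨x k, hmem, rfl⟩, hx2 k j hjk⟩ ⟨f^[j] (x j), ⟨x j, hxjC, rfl⟩, hx3 j⟩
    exact Set.disjoint_left.1 (hΛd (n + j)) hv1 hv2
  apply Set.infinite_of_injective_forall_mem
    (f := fun j : ℕ => connectedComponentIn Aᶜ ((x j : ℂ) : OnePoint ℂ))
  · intro j k hjk
    have hjk : connectedComponentIn Aᶜ ((x j : ℂ) : OnePoint ℂ) =
      connectedComponentIn Aᶜ ((x k : ℂ) : OnePoint ℂ) := hjk
    by_contra hne
    rcases lt_or_gt_of_ne hne with h3 | h3
    · apply hsep j k h3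
      rw [hjk]
      exact mem_connectedComponentIn (hxA k)
    · apply hsep k j h3
      rw [← hjk]
      exact mem_connectedComponentIn (hxA j)
  · intro j
    exact ⟨_, hxA j, rfl⟩

theorem infInner (h : Sys f r s R') : InfInner f (U f s 0) := by
  intro z₀ hz₀
  refine ⟨1 / 2, by norm_num, ?_⟩
  filter_upwards [h.growth hz₀ 4, h.growth hz₀ 2] with n h4 h2
  rw [zero_add] at h4 h2
  rw [h.U_iter n]
  set ρ : ℝ := ‖f^[n] z₀‖ with hρ
  have hs := h.hs20 n
  have hs4 : s n ≤ s n ^ 4 := le_self_pow₀ (by linarith) (by norm_num)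
  have hρ1 : s n < ρ := by linarith [h4.1]
  have hρ0 : 0 < ρ := by linarith
  have hρ2 : ρ < r (n + 1) := by nlinarith [h2.2]
  refine ⟨⟨1 / 4, 2, by norm_num, by norm_num, by norm_num, ?_⟩, h.holes n hρ1 hρ2⟩
  rintro z ⟨hz1, hz2⟩
  apply h.B_U n
  constructor
  · refine lt_of_le_of_lt ?_ hz1
    have e : (s n ^ 4) ^ (1 / 4 : ℝ) = s n := by
      rw [← Real.rpow_natCast, ← Real.rpow_mul (by linarith)]
      norm_num
    rw [← e]
    exact Real.rpow_le_rpow (by positivity) h4.1.le (by norm_num)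
  · have e : ρ ^ (2 : ℝ) = ρ ^ 2 := by
      rw [← Real.rpow_natCast]
      norm_num
    rw [e] at hz2
    linarith [h2.2]

theorem trans (h : Sys f r s R') : TransEntire f := by
  refine ⟨h.hf, ?_⟩
  rintro ⟨p, hp⟩
  -- growth of a polynomial
  obtain ⟨C, hC⟩ : ∃ C : ℝ, ∀ z : ℂ, 1 ≤ ‖z‖ → ‖p.eval z‖ ≤ C * ‖z‖ ^ p.natDegree := by
    refine ⟨∑ i ∈ Finset.range (p.natDegree + 1), ‖p.coeff i‖, fun z hz => ?_⟩
    rw [eval_eq_sum_range, Finset.sum_mul]
    apply norm_sum_le_of_le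
    intro i hi
    rw [norm_mul, norm_pow]
    apply mul_le_mul_of_nonneg_left _ (norm_nonneg _)
    exact pow_le_pow_right₀ hz (by have := Finset.mem_range.1 hi; omega)
  obtain ⟨m, hm, hmd⟩ := ((h.r_tendsto.comp (tendsto_add_atTop_nat 1)).eventually_gt_atTop C |>.and
    (eventually_ge_atTop p.natDegree)).exists
  simp only [Function.comp] at hm
  set z : ℂ := ((r (m + 1) : ℝ) : ℂ) with hz
  have hr1 := h.hr1 (m + 1)
  have hzn : ‖z‖ = r (m + 1) := by
    rw [hz, Complex.norm_real, Real.norm_eq_abs, abs_of_nonneg (by linarith)]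
  have h1 : s m ^ (m + 2) ≤ ‖z‖ := by
    rw [hzn]
    exact (h.hR m).trans (h.R_lt' m).le
  have h2 := (h.st m).low3 z h1 hzn.le
  have h3 : r (m + 1) ^ (m + 3) ≤ s (m + 1) ^ (m + 3) :=
    pow_le_pow_left₀ (by linarith) (h.hrs (m + 1)).le _
  have h4 := hC z (by rw [hzn]; exact hr1)
  rw [hp z] at h2
  rw [hzn] at h4
  have h5 : r (m + 1) ^ (m + 3) ≤ C * r (m + 1) ^ p.natDegree := h3.trans (h2.trans h4)
  have h6 : r (m + 1) ^ (p.natDegree + 1) ≤ r (m + 1) ^ (m + 3) :=
    pow_le_pow_right₀ hr1 (by omega)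
  have h7 : 0 < r (m + 1) ^ p.natDegree := by positivity
  rw [pow_succ] at h6
  have h8 : C * r (m + 1) ^ p.natDegree < r (m + 1) * r (m + 1) ^ p.natDegree :=
    mul_lt_mul_of_pos_right hm h7
  linarith

end Sys

end Pool.Agent.V7H51.SC
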