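import Pool.Agent.TH224.SC.Level

/-!
A polynomial whose lemniscate has two components, one of them contained in a small disc, and the
size of the components of the preimages of small discs under a polynomial.
-/

set_option autoImplicit false

open Filter Topology Metric Set Polynomial

namespace Pool.Agent.V7H51.SC

open Pool.Agent.TH224.SC

/-- a component of `{|p| ≤ s}` is bounded and maps onto the disc -/
theorem Vc_onto {G : ℂ → ℂ} (hc : Continuous G) (ho : IsOpenMap G) {s : ℝ} {N : Set ℂ}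
    (hN : IsOpen N) (hb : Bornology.IsBounded N) (hfr : ∀ z ∈ frontier N, s < ‖G z‖) {a : ℂ}
    (ha : a ∈ N) (hGa : ‖G a‖ ≤ s) :
    Vc G s a ⊆ N ∧ ∀ e : ℂ, ‖e‖ ≤ s → ∃ z ∈ Vc G s a, G z = e := by
  have h := conf hc ho (E := closedBall 0 s) (convex_closedBall _ _).isPreconnected
    isClosed_closedBall hN hb (fun z hz h => by
      rw [mem_closedBall_zero_iff] at h
      exact absurd h (not_le.2 (hfr z hz))) ha (by rwa [mem_closedBall_zero_iff])
  have e1 : G ⁻¹' closedBall 0 s = {z | ‖G z‖ ≤ s} := by ext z; simp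
  rw [e1] at h
  exact ⟨h.1, fun e he => h.2 e (by rwa [mem_closedBall_zero_iff])⟩

/-- the lemniscate polynomial `(z / ρ₁) ^ n (z - p)` -/
theorem exists_lem {ρ s ε : ℝ} (hρ : 0 < ρ) (hρs : ρ < s) (hε : 0 < ε) :
    ∃ (L : ℂ[X]) (e : Bool → ℂ), 0 < L.natDegree ∧
      (∀ z : ℂ, ‖z‖ ≤ ρ → ‖L.eval z‖ < 1 / 4) ∧
      (∀ z : ℂ, s ≤ ‖z‖ → 4 < ‖L.eval z‖ ∧ 4 * ((‖z‖ - s) / (2 * s)) ≤ ‖L.eval z‖) ∧
      (∀ c : ℝ, 0 ≤ c → c ≤ 4 → ∀ z : ℂ, ‖L.eval z‖ ≤ c →
        ∃ b, z ∈ Vc (fun z => L.eval z) c (e b)) ∧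
      Disjoint (Vc (fun z => L.eval z) 4 (e false)) (Vc (fun z => L.eval z) 4 (e true)) ∧
      (∀ b, L.eval (e b) = 0) ∧
      Vc (fun z => L.eval z) 4 (e true) ⊆ closedBall (e true) ε := by
  set h : ℝ := (s - ρ) / 4 with hh
  have h0 : 0 < h := by rw [hh]; linarith
  have hs4 : s = ρ + 4 * h := by rw [hh]; ring
  set ρ₁ : ℝ := ρ + h with hρ₁
  set ρ₂ : ℝ := ρ + 2 * h with hρ₂
  set p : ℝ := ρ + 3 * h with hp
  set ε' : ℝ := min ε (h / 2) with hε'
  have hε'0 : 0 < ε' := lt_min hε (by linarith)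
  have hε'h : ε' ≤ h / 2 := min_le_right _ _
  have hε'ε : ε' ≤ ε := min_le_left _ _
  have hρ₁0 : 0 < ρ₁ := by linarith
  have hρ₂0 : 0 < ρ₂ := by linarith
  have hs0 : 0 < s := by linarith
  have hq1 : ρ / ρ₁ < 1 := by rw [div_lt_one hρ₁0]; linarith
  have hq2 : 1 < ρ₂ / ρ₁ := by rw [one_lt_div hρ₁0]; linarith
  have e1 : ∀ᶠ n : ℕ in atTop, (ρ / ρ₁) ^ n < 1 / (4 * (ρ + p)) :=
    (tendsto_pow_atTop_nhds_zero_of_lt_one (by positivity) hq1).eventually
      (gt_mem_nhds (by positivity))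
  have e2 : ∀ᶠ n : ℕ in atTop, 5 / ε' < (ρ₂ / ρ₁) ^ n :=
    (tendsto_pow_atTop_atTop_of_one_lt hq2).eventually_gt_atTop _
  have e3 : ∀ᶠ n : ℕ in atTop, 2 / s < (ρ₂ / ρ₁) ^ n :=
    (tendsto_pow_atTop_atTop_of_one_lt hq2).eventually_gt_atTop _
  obtain ⟨n, hn1, hn2, hn3, hn4⟩ := (e1.and (e2.and (e3.and (eventually_ge_atTop 1)))).exists
  set L : ℂ[X] := C (((1 / ρ₁ : ℝ) : ℂ) ^ n) * (X ^ n * (X - C ((p : ℝ) : ℂ))) with hL
  have hLe : ∀ z, L.eval z = (((1 / ρ₁ : ℝ) : ℂ) * z) ^ n * (z - p) := by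
    intro z
    rw [hL]
    simp only [eval_mul, eval_C, eval_pow, eval_X, eval_sub]
    ring
  have hLn : ∀ z : ℂ, ‖L.eval z‖ = (‖z‖ / ρ₁) ^ n * ‖z - p‖ := by
    intro z
    rw [hLe, norm_mul, norm_pow, norm_mul, Complex.norm_real, Real.norm_eq_abs,
      abs_of_pos (by positivity)]
    congr 2
    field_simp
  have hcne : (((1 / ρ₁ : ℝ) : ℂ) ^ n) ≠ 0 := by
    apply pow_ne_zero
    exact_mod_cast (by positivity : (1 / ρ₁ : ℝ) ≠ 0)
  have hLdeg : 0 < L.natDegree := by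
    rw [hL, natDegree_C_mul hcne, natDegree_mul (pow_ne_zero _ X_ne_zero) (X_sub_C_ne_zero _),
      natDegree_X_pow, natDegree_X_sub_C]
    omega
  have hpn : ‖(p : ℂ)‖ = p := by
    rw [Complex.norm_real, Real.norm_eq_abs, abs_of_pos (by linarith)]
  have hbig : ∀ z : ℂ, ρ₂ ≤ ‖z‖ → ε' ≤ ‖z - p‖ → 4 < ‖L.eval z‖ := by
    intro z h1 h2
    rw [hLn]
    have h3 : (ρ₂ / ρ₁) ^ n ≤ (‖z‖ / ρ₁) ^ n := by gcongr
    calc (4 : ℝ) < 5 / ε' * ε' := by
          rw [div_mul_cancel₀ _ hε'0.ne']; norm_num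
      _ ≤ (‖z‖ / ρ₁) ^ n * ‖z - p‖ := by
          apply mul_le_mul (by linarith) h2 hε'0.le (by positivity)
  have hin : ∀ z : ℂ, ‖L.eval z‖ ≤ 4 → z ∈ ball (0 : ℂ) ρ₂ ∪ ball (p : ℂ) ε' := by
    intro z hz
    by_contra hcon
    rw [Set.mem_union, not_or, mem_ball_zero_iff, mem_ball, dist_eq_norm, not_lt, not_lt] at hcon
    linarith [hbig z hcon.1 hcon.2]
  have hins : ∀ z : ℂ, ‖L.eval z‖ ≤ 4 → ‖z‖ < s := by
    intro z hz
    rcases hin z hz with h1 | h1
    · rw [mem_ball_zero_iff] at h1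
      linarith
    · rw [mem_ball, dist_eq_norm] at h1
      have := norm_sub_norm_le z (p : ℂ)
      rw [hpn] at this
      linarith
  have hfar : ∀ z : ℂ, s ≤ ‖z‖ → h ≤ ‖z - p‖ ∧ ‖z‖ - s ≤ ‖z - p‖ := by
    intro z hz
    have := norm_sub_norm_le z (p : ℂ)
    rw [hpn] at this
    constructor <;> linarith
  have hb0 : L.eval 0 = 0 := by
    rw [hLe, mul_zero, zero_pow (by omega), zero_mul]
  have hb1 : L.eval (p : ℂ) = 0 := by
    rw [hLe, sub_self, mul_zero]
  set e : Bool → ℂ := fun b => if b then (p : ℂ) else 0 with he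
  have hef : e false = 0 := by simp [he]
  have het : e true = p := by simp [he]
  have hdisj : Disjoint (ball (0 : ℂ) ρ₂) (ball (p : ℂ) ε') := by
    apply ball_disjoint_ball
    rw [dist_eq_norm, zero_sub, norm_neg, hpn]
    linarith
  have hV0 : Vc (fun z => L.eval z) 4 0 ⊆ ball (0 : ℂ) ρ₂ :=
    (Vc_pre _ _ _).subset_left_of_subset_union isOpen_ball isOpen_ball hdisj
      (fun z hz => hin z (Vc_sub hz)) ⟨0, mem_Vc (by simp [hb0]), mem_ball_self hρ₂0⟩
  have hV1 : Vc (fun z => L.eval z) 4 (p : ℂ) ⊆ ball (p : ℂ) ε' :=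
    (Vc_pre _ _ _).subset_right_of_subset_union isOpen_ball isOpen_ball hdisj
      (fun z hz => hin z (Vc_sub hz)) ⟨p, mem_Vc (by simp [hb1]), mem_ball_self hε'0⟩
  refine ⟨L, e, hLdeg, ?_, ?_, ?_, ?_, ?_, ?_⟩
  · intro z hz
    rw [hLn]
    have h1 : (‖z‖ / ρ₁) ^ n ≤ (ρ / ρ₁) ^ n := by gcongr
    have h2 : ‖z - p‖ ≤ ρ + p := by
      calc ‖z - p‖ ≤ ‖z‖ + ‖(p : ℂ)‖ := norm_sub_le _ _
        _ ≤ ρ + p := by rw [hpn]; linarith
    have hpp : 0 < ρ + p := by linarith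
    calc (‖z‖ / ρ₁) ^ n * ‖z - p‖ ≤ (ρ / ρ₁) ^ n * (ρ + p) := by gcongr
      _ < 1 / (4 * (ρ + p)) * (ρ + p) := by gcongr
      _ = 1 / 4 := by field_simp
  · intro z hz
    obtain ⟨h1, h2⟩ := hfar z hz
    refine ⟨hbig z (by linarith) (by linarith), ?_⟩
    rw [hLn]
    have h3 : (ρ₂ / ρ₁) ^ n ≤ (‖z‖ / ρ₁) ^ n := by
      have : ρ₂ ≤ ‖z‖ := by linarith
      gcongr
    calc 4 * ((‖z‖ - s) / (2 * s)) = 2 / s * (‖z‖ - s) := by field_simp; ring
      _ ≤ (‖z‖ / ρ₁) ^ n * ‖z - p‖ := by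
        apply mul_le_mul (by linarith) h2 (by linarith) (by positivity)
  · intro c hc0 hc4 z hz
    obtain ⟨-, honto⟩ := Vc_onto (G := fun z => L.eval z) L.continuous (open_poly hLdeg)
      (isOpen_ball (x := (0 : ℂ)) (ε := s)) isBounded_ball (s := c) (a := z) (by
        intro w hw
        have h5 : w ∈ sphere (0 : ℂ) s := frontier_ball_subset_sphere hw
        rw [mem_sphere_zero_iff_norm] at h5
        by_contra h6
        push Not at h6
        have := hins w (h6.trans hc4)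
        linarith) (by rw [mem_ball_zero_iff]; exact hins z (hz.trans hc4)) hz
    obtain ⟨w, hw, hw0⟩ := honto 0 (by rw [norm_zero]; exact hc0)
    have hw0 : L.eval w = 0 := hw0
    have hzw : z ∈ Vc (fun z => L.eval z) c w := by
      rw [← Vc_eq hw]; exact mem_Vc hz
    rw [hLe, mul_eq_zero, pow_eq_zero_iff (by omega), mul_eq_zero] at hw0
    rcases hw0 with (h1 | h1) | h1
    · exfalso
      have : (1 / ρ₁ : ℝ) = 0 := by exact_mod_cast h1
      have h2 : (0 : ℝ) < 1 / ρ₁ := by positivity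
      linarith
    · refine ⟨false, ?_⟩
      rw [hef, ← h1]
      exact hzw
    · refine ⟨true, ?_⟩
      rw [het, ← sub_eq_zero.1 h1]
      exact hzw
  · rw [hef, het]
    exact hdisj.mono hV0 hV1
  · intro b
    cases b
    · rw [hef]; exact hb0
    · rw [het]; exact hb1
  · rw [het]
    exact hV1.trans (ball_subset_closedBall.trans (closedBall_subset_closedBall hε'ε))

/-- A connected set covered by `d` discs of radius `t` has diameter at most `2 d t`. -/
theorem diam_of_cover {P : Set ℂ} (hP : IsPreconnected P) (S : Multiset ℂ) {t : ℝ} (ht : 0 ≤ t)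
    (hcov : ∀ z ∈ P, ∃ ζ ∈ S, ‖z - ζ‖ ≤ t) {x y : ℂ} (hx : x ∈ P) (hy : y ∈ P) :
    ‖x - y‖ ≤ S.card * (2 * t) := by
  classical
  have h1 : Icc (0 : ℝ) ‖y - x‖ ⊆ ⋃ ζ ∈ S.toFinset, Icc (‖ζ - x‖ - t) (‖ζ - x‖ + t) := by
    intro u hu
    have h2 := hP.intermediate_value hx hy (f := fun z => ‖z - x‖) (by fun_prop)
    simp only [sub_self, norm_zero] at h2
    obtain ⟨z, hz, hzu⟩ := h2 hu
    have hzu : ‖z - x‖ = u := hzu
    obtain ⟨ζ, hζ, hζz⟩ := hcov z hz
    simp only [mem_iUnion]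
    refine ⟨ζ, Multiset.mem_toFinset.2 hζ, ?_, ?_⟩
    · have : ‖ζ - x‖ ≤ ‖z - ζ‖ + ‖z - x‖ := by
        have := norm_sub_le_norm_sub_add_norm_sub ζ z x
        rwa [norm_sub_rev ζ z] at this
      linarith
    · have := norm_sub_le_norm_sub_add_norm_sub z ζ x
      linarith
  have h2 := MeasureTheory.measure_mono (μ := MeasureTheory.volume) h1
  have h3 : MeasureTheory.volume (⋃ ζ ∈ S.toFinset, Icc (‖ζ - x‖ - t) (‖ζ - x‖ + t)) ≤
      ∑ ζ ∈ S.toFinset, ENNReal.ofReal (2 * t) := by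
    refine (MeasureTheory.measure_biUnion_finset_le _ _).trans ?_
    apply Finset.sum_le_sum
    intro ζ _
    rw [Real.volume_Icc]
    apply ENNReal.ofReal_le_ofReal
    linarith
  rw [Real.volume_Icc, sub_zero] at h2
  have h4 := h2.trans h3
  rw [Finset.sum_const, nsmul_eq_mul, ← ENNReal.ofReal_natCast,
    ← ENNReal.ofReal_mul (Nat.cast_nonneg _), ENNReal.ofReal_le_ofReal_iff (by positivity)] at h4
  rw [norm_sub_rev]
  refine h4.trans ?_
  have h5 : (S.toFinset.card : ℝ) ≤ S.card := by exact_mod_cast Multiset.toFinset_card_le S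
  gcongr

/-- Connected sets on which a polynomial is nearly constant are small. -/
theorem small_comp {G : ℂ[X]} (hG : 0 < G.natDegree) {η : ℝ} (hη : 0 < η) :
    ∃ ε : ℝ, 0 < ε ∧ ∀ (p : ℂ) (P : Set ℂ), IsPreconnected P → (∀ z ∈ P, ‖G.eval z - p‖ ≤ ε) →
      ∀ x ∈ P, ∀ y ∈ P, ‖x - y‖ ≤ η := by
  set d := G.natDegree with hd
  have hd0 : (0 : ℝ) < d := by exact_mod_cast hG
  have hG0 : G ≠ 0 := by
    rintro h
    rw [hd, h] at hG
    simp at hG
  have hc : 0 < ‖G.leadingCoeff‖ := norm_pos_iff.2 (leadingCoeff_ne_zero.2 hG0)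
  set t : ℝ := η / (2 * d) with ht
  have ht0 : 0 < t := by positivity
  refine ⟨‖G.leadingCoeff‖ * t ^ d, by positivity, fun p P hP hPG x hx y hy => ?_⟩
  set Q : ℂ[X] := G - C p with hQ
  have hQd : Q.natDegree = d := by rw [hQ, natDegree_sub_C]
  have hQ0 : Q ≠ 0 := by
    rintro h
    rw [h] at hQd
    simp at hQd
    omega
  have hQl : Q.leadingCoeff = G.leadingCoeff := by
    rw [hQ]
    apply leadingCoeff_sub_of_degree_lt
    calc (C p).degree ≤ 0 := degree_C_le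
      _ < G.degree := natDegree_pos_iff_degree_pos.1 hG
  have hQs : Q.Splits := IsAlgClosed.splits Q
  have hcard : Q.roots.card = d := by
    rw [← hQd]
    exact (splits_iff_card_roots.1 hQs)
  have hcov : ∀ z ∈ P, ∃ ζ ∈ Q.roots, ‖z - ζ‖ ≤ t := by
    intro z hz
    by_contra hcon
    push Not at hcon
    have h1 := hPG z hz
    have h2 : G.eval z - p = Q.eval z := by rw [hQ]; simp
    rw [h2] at h1
    have h3 : Q.eval z = Q.leadingCoeff * (Q.roots.map fun ζ => z - ζ).prod := by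
      conv_lhs => rw [hQs.eq_prod_roots]
      rw [eval_mul, eval_C, eval_multiset_prod, Multiset.map_map]
      simp
    rw [h3, norm_mul, hQl] at h1
    have h4 : t ^ d < ‖(Q.roots.map fun ζ => z - ζ).prod‖ := by
      have h5 : ∀ S : Multiset ℂ, 0 < S.card → (∀ ζ ∈ S, t < ‖z - ζ‖) →
          t ^ S.card < ‖(S.map fun ζ => z - ζ).prod‖ := by
        intro S
        induction S using Multiset.induction with
        | empty => intro h; simp at h
        | cons a S ih =>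
          intro _ hS
          rw [Multiset.card_cons, Multiset.map_cons, Multiset.prod_cons, norm_mul, pow_succ']
          have h6 := hS a (Multiset.mem_cons_self a S)
          rcases Nat.eq_zero_or_pos S.card with h7 | h7
          · rw [Multiset.card_eq_zero] at h7
            subst h7
            simpa using h6
          · have h8 := ih h7 (fun ζ hζ => hS ζ (Multiset.mem_cons_of_mem hζ))
            exact mul_lt_mul h6 h8.le (by positivity) (norm_nonneg _)
      have := h5 Q.roots (by rw [hcard]; exact hG) hcon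
      rwa [hcard] at this
    have h5 := mul_lt_mul_of_pos_left h4 hc
    linarith
  have := diam_of_cover hP Q.roots ht0.le hcov hx hy
  rw [hcard] at this
  calc ‖x - y‖ ≤ d * (2 * t) := this
    _ = η := by rw [ht]; field_simp

end Pool.Agent.V7H51.SC
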