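import Pool.Agent.V7H51.SC.Step

/-!
The sequence of polynomials and its limit.
-/

set_option autoImplicit false

open Filter Topology Metric Set Polynomial

namespace Pool.Agent.V7H51.SC

open Pool.Agent.TH224.SC

theorem close_seq {F : ℕ → ℂ[X]} {τ : ℕ → ℝ} (hτ0 : ∀ m, 0 < τ m) (hτ1 : ∀ m, τ m ≤ 1)
    (hτ : ∀ m, τ (m + 1) ≤ τ m / 4) {r : ℕ → ℝ} (hmono : Monotone r)
    (hF : ∀ m (z : ℂ), ‖z‖ ≤ r m → ‖(F (m + 1)).eval z - (F m).eval z‖ ≤ τ m / 4 * ‖(F m).eval z‖)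
    (m n : ℕ) {z : ℂ} (hz : ‖z‖ ≤ r m) :
    ‖(F (m + n)).eval z - (F m).eval z‖ ≤ 2 / 3 * (1 - (1 / 4) ^ n) * (τ m * ‖(F m).eval z‖) ∧
    ‖(F (m + n + 1)).eval z - (F (m + n)).eval z‖ ≤ (τ m * ‖(F m).eval z‖) / 2 * (1 / 4) ^ n := by
  have hτn : ∀ n, τ (m + n) ≤ τ m * (1 / 4) ^ n := by
    intro n
    induction n with
    | zero => simp
    | succ n ih =>
      calc τ (m + (n + 1)) ≤ τ (m + n) / 4 := hτ _
        _ ≤ τ m * (1 / 4) ^ (n + 1) := by rw [pow_succ]; linarith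
  have hA : 0 ≤ τ m * ‖(F m).eval z‖ := mul_nonneg (hτ0 m).le (norm_nonneg _)
  have hAle : τ m * ‖(F m).eval z‖ ≤ ‖(F m).eval z‖ := by
    have := mul_le_mul_of_nonneg_right (hτ1 m) (norm_nonneg ((F m).eval z))
    linarith
  have hstep : ∀ n, ‖(F (m + n)).eval z - (F m).eval z‖ ≤
      2 / 3 * (1 - (1 / 4) ^ n) * (τ m * ‖(F m).eval z‖) →
      ‖(F (m + n + 1)).eval z - (F (m + n)).eval z‖ ≤
        (τ m * ‖(F m).eval z‖) / 2 * (1 / 4) ^ n := by
    intro n ih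
    have h1 := hF (m + n) z (hz.trans (hmono (Nat.le_add_right m n)))
    have hq : (0 : ℝ) ≤ (1 / 4) ^ n := by positivity
    have hq1 : ((1 : ℝ) / 4) ^ n ≤ 1 := pow_le_one₀ (by norm_num) (by norm_num)
    have h2 : ‖(F (m + n)).eval z‖ ≤ 2 * ‖(F m).eval z‖ := by
      have h3 := norm_sub_norm_le ((F (m + n)).eval z) ((F m).eval z)
      have h4 : 2 / 3 * (1 - (1 / 4) ^ n) * (τ m * ‖(F m).eval z‖) ≤ 1 * (τ m * ‖(F m).eval z‖) :=
        mul_le_mul_of_nonneg_right (by nlinarith) hA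
      linarith
    calc _ ≤ τ (m + n) / 4 * ‖(F (m + n)).eval z‖ := h1
      _ ≤ (τ m * (1 / 4) ^ n) / 4 * (2 * ‖(F m).eval z‖) := by
        have h5 := hτn n
        have h6 := (hτ0 (m + n)).le
        exact mul_le_mul (by linarith) h2 (norm_nonneg _) (by linarith)
      _ = _ := by ring
  have hmain : ∀ n, ‖(F (m + n)).eval z - (F m).eval z‖ ≤
      2 / 3 * (1 - (1 / 4) ^ n) * (τ m * ‖(F m).eval z‖) := by
    intro n
    induction n with
    | zero => simp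
    | succ n ih =>
      have h1 := hstep n ih
      have h2 := norm_sub_le_norm_sub_add_norm_sub ((F (m + n + 1)).eval z) ((F (m + n)).eval z)
        ((F m).eval z)
      rw [← add_assoc]
      calc _ ≤ _ := h2
        _ ≤ (τ m * ‖(F m).eval z‖) / 2 * (1 / 4) ^ n +
            2 / 3 * (1 - (1 / 4) ^ n) * (τ m * ‖(F m).eval z‖) := add_le_add h1 ih
        _ = _ := by rw [pow_succ]; ring
  exact ⟨hmain n, hstep n (hmain n)⟩

theorem limit {F : ℕ → ℂ[X]} {τ : ℕ → ℝ} (hτ0 : ∀ m, 0 < τ m) (hτ1 : ∀ m, τ m ≤ 1)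
    (hτ : ∀ m, τ (m + 1) ≤ τ m / 4) {r : ℕ → ℝ} (hmono : Monotone r)
    (hr : Tendsto r atTop atTop)
    (hF : ∀ m (z : ℂ), ‖z‖ ≤ r m → ‖(F (m + 1)).eval z - (F m).eval z‖ ≤ τ m / 4 * ‖(F m).eval z‖) :
    ∃ f : ℂ → ℂ, Differentiable ℂ f ∧
      ∀ m (z : ℂ), ‖z‖ ≤ r m → ‖f z - (F m).eval z‖ ≤ τ m * ‖(F m).eval z‖ := by
  have hex : ∀ z : ℂ, ∃ m, ‖z‖ ≤ r m := fun z => (hr.eventually_ge_atTop ‖z‖).exists
  have hlim : ∀ z : ℂ, ∃ w, Tendsto (fun n => (F n).eval z) atTop (𝓝 w) := by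
    intro z
    obtain ⟨m, hm⟩ := hex z
    have h1 : CauchySeq (fun n => (F (m + n)).eval z) := by
      apply cauchySeq_of_le_geometric (1 / 4) ((τ m * ‖(F m).eval z‖) / 2) (by norm_num)
      intro n
      rw [dist_eq_norm, norm_sub_rev]
      exact (close_seq hτ0 hτ1 hτ hmono hF m n hm).2
    obtain ⟨w, hw⟩ := cauchySeq_tendsto_of_complete h1
    refine ⟨w, ?_⟩
    rw [← tendsto_add_atTop_iff_nat m]
    refine hw.congr fun n => ?_
    rw [add_comm]
  choose f hf using hlim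
  have hclose : ∀ m (z : ℂ), ‖z‖ ≤ r m → ‖f z - (F m).eval z‖ ≤ τ m * ‖(F m).eval z‖ := by
    intro m z hz
    have h1 : Tendsto (fun n => ‖(F (m + n)).eval z - (F m).eval z‖) atTop
        (𝓝 ‖f z - (F m).eval z‖) := by
      have h2 := (tendsto_add_atTop_iff_nat m).2 (hf z)
      have h3 : Tendsto (fun n => (F (m + n)).eval z) atTop (𝓝 (f z)) :=
        h2.congr fun n => by rw [add_comm]
      exact (h3.sub_const _).norm
    apply le_of_tendsto h1
    filter_upwards with n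
    refine (close_seq hτ0 hτ1 hτ hmono hF m n hz).1.trans ?_
    have hA : 0 ≤ τ m * ‖(F m).eval z‖ := mul_nonneg (hτ0 m).le (norm_nonneg _)
    have hq : (0 : ℝ) ≤ (1 / 4) ^ n := by positivity
    have h4 : 2 / 3 * (1 - (1 / 4) ^ n) * (τ m * ‖(F m).eval z‖) ≤ 1 * (τ m * ‖(F m).eval z‖) :=
      mul_le_mul_of_nonneg_right (by nlinarith) hA
    linarith
  refine ⟨f, ?_, hclose⟩
  have hτlim : Tendsto τ atTop (𝓝 0) := by
    have h1 : ∀ n, τ n ≤ τ 0 * (1 / 4) ^ n := by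
      intro n
      induction n with
      | zero => simp
      | succ n ih =>
        calc τ (n + 1) ≤ τ n / 4 := hτ _
          _ ≤ τ 0 * (1 / 4) ^ (n + 1) := by rw [pow_succ]; linarith
    apply squeeze_zero (fun n => (hτ0 n).le) h1
    have := (tendsto_pow_atTop_nhds_zero_of_lt_one (r := (1 / 4 : ℝ)) (by norm_num)
      (by norm_num)).const_mul (τ 0)
    rwa [mul_zero] at this
  have hon : ∀ m, DifferentiableOn ℂ f (ball 0 (r m)) := by
    intro m
    have hlu : TendstoLocallyUniformlyOn (fun n z => (F n).eval z) f atTop (ball 0 (r m)) := by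
      apply TendstoUniformlyOn.tendstoLocallyUniformlyOn
      rw [Metric.tendstoUniformlyOn_iff]
      intro ε hε
      obtain ⟨M, hM1, hM⟩ := exists_bound (F m) (r m)
      have h1 : ∀ᶠ n in atTop, τ n * (2 * M) < ε := by
        have := hτlim.mul_const (2 * M)
        rw [zero_mul] at this
        exact this.eventually (gt_mem_nhds hε)
      filter_upwards [h1, eventually_ge_atTop m] with n hn hmn z hz
      rw [mem_ball_zero_iff] at hz
      rw [dist_eq_norm]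
      have h2 := hclose n z (hz.le.trans (hmono hmn))
      obtain ⟨k, rfl⟩ := Nat.exists_eq_add_of_le hmn
      have h3 : ‖(F (m + k)).eval z‖ ≤ 2 * M := by
        have h4 := (close_seq hτ0 hτ1 hτ hmono hF m k hz.le).1
        have h5 := norm_sub_norm_le ((F (m + k)).eval z) ((F m).eval z)
        have h6 := hM z hz.le
        have hA : 0 ≤ τ m * ‖(F m).eval z‖ := mul_nonneg (hτ0 m).le (norm_nonneg _)
        have hAle : τ m * ‖(F m).eval z‖ ≤ ‖(F m).eval z‖ := by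
          have := mul_le_mul_of_nonneg_right (hτ1 m) (norm_nonneg ((F m).eval z))
          linarith
        have hq : (0 : ℝ) ≤ (1 / 4) ^ k := by positivity
        have h7 : 2 / 3 * (1 - (1 / 4) ^ k) * (τ m * ‖(F m).eval z‖) ≤
            1 * (τ m * ‖(F m).eval z‖) :=
          mul_le_mul_of_nonneg_right (by nlinarith) hA
        linarith
      calc ‖f z - (F (m + k)).eval z‖ ≤ τ (m + k) * ‖(F (m + k)).eval z‖ := h2
        _ ≤ τ (m + k) * (2 * M) := mul_le_mul_of_nonneg_left h3 (hτ0 _).le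
        _ < ε := hn
    exact hlu.differentiableOn (Eventually.of_forall fun n => (F n).differentiable.differentiableOn)
      isOpen_ball
  intro z
  obtain ⟨m, hm⟩ := (hr.eventually_gt_atTop ‖z‖).exists
  exact (hon m).differentiableAt (isOpen_ball.mem_nhds (by rwa [mem_ball_zero_iff]))

/-- dependent choice -/
theorem dep_choice {α : Type} (P : ℕ → α → Prop) (Q : ℕ → α → α → Prop) {x₀ : α} (h0 : P 0 x₀)
    (h : ∀ m x, P m x → ∃ y, P (m + 1) y ∧ Q m x y) :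
    ∃ u : ℕ → α, u 0 = x₀ ∧ (∀ m, P m (u m)) ∧ ∀ m, Q m (u m) (u (m + 1)) := by
  choose! g hg using h
  set u : ℕ → α := fun n => Nat.rec x₀ (fun m x => g m x) n with hu
  have hP : ∀ m, P m (u m) := by
    intro m
    induction m with
    | zero => exact h0
    | succ m ih => exact (hg m (u m) ih).1
  exact ⟨u, rfl, hP, fun m => (hg m (u m) (hP m)).2⟩

theorem open_entire {f : ℂ → ℂ} (hf : Differentiable ℂ f) {a b : ℂ} (hab : f a ≠ f b) :
    IsOpenMap f := by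
  have h1 : AnalyticOnNhd ℂ f univ := hf.differentiableOn.analyticOnNhd isOpen_univ
  obtain ⟨x, eq⟩ | h := h1.is_constant_or_isOpenMap
  · exact absurd ((eq a).trans (eq b).symm) hab
  · exact h

/-- **the entire function** -/
theorem exists_fun : ∃ (f : ℂ → ℂ) (r s R' : ℕ → ℝ), Differentiable ℂ f ∧ IsOpenMap f ∧
    f 0 = 0 ∧ (∀ m, 1 ≤ r m ∧ r m < s m ∧ 20 ≤ s m ∧ s m ^ (m + 2) ≤ R' m ∧
      r (m + 1) = R' m ^ (m + 2)) ∧
    ∀ m, StageProps m (r m) (s m) (r (m + 1)) (s (m + 1)) (R' m) f := by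
  -- the relation
  set Q : ℕ → (ℂ[X] × ℝ × ℝ × ℝ) → (ℂ[X] × ℝ × ℝ × ℝ) → Prop := fun m x y =>
    ∃ τ R' : ℝ, 0 < τ ∧ τ ≤ x.2.2.2 ∧ y.2.2.2 = τ / 4 ∧
      (∀ z : ℂ, ‖z‖ ≤ x.2.1 → ‖y.1.eval z - x.1.eval z‖ ≤ τ / 4 * ‖x.1.eval z‖) ∧
      x.2.2.1 ^ (m + 2) ≤ R' ∧ y.2.1 = R' ^ (m + 2) ∧
      ∀ f : ℂ → ℂ, Continuous f → IsOpenMap f →
        (∀ z : ℂ, ‖z‖ ≤ x.2.1 → ‖f z - x.1.eval z‖ ≤ τ * ‖x.1.eval z‖) →
        (∀ z : ℂ, ‖z‖ ≤ y.2.1 → ‖f z - y.1.eval z‖ ≤ τ / 4 * ‖y.1.eval z‖) →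
        StageProps m x.2.1 x.2.2.1 y.2.1 y.2.2.1 R' f with hQ
  set P : ℕ → (ℂ[X] × ℝ × ℝ × ℝ) → Prop := fun m x => Good m x.1 x.2.1 x.2.2.1 x.2.2.2 with hP
  have hinit : P 0 (X, 1, 20, 1 / 8) := by
    refine ⟨by simp, by simp, ?_, le_rfl, by norm_num, le_rfl, by norm_num, le_rfl⟩
    intro z hz
    rw [eval_X] at hz
    rw [hz]
    simp
  have hstep : ∀ m x, P m x → ∃ y, P (m + 1) y ∧ Q m x y := by
    rintro m ⟨F, r, s, σ⟩ h
    obtain ⟨τ, R', r', s', F', h1, h2, h3, h4, h5, h6, h7⟩ := step m h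
    exact ⟨(F', r', s', τ / 4), h4, τ, R', h1, h2, rfl, h3, h5, h6, h7⟩
  obtain ⟨u, hu0, huP, huQ⟩ := dep_choice P Q hinit hstep
  choose τ R' h1 h2 h3 h4 h5 h6 h7 using huQ
  set F : ℕ → ℂ[X] := fun m => (u m).1 with hF
  set r : ℕ → ℝ := fun m => (u m).2.1 with hr
  set s : ℕ → ℝ := fun m => (u m).2.2.1 with hs
  have hG : ∀ m, Good m (F m) (r m) (s m) (u m).2.2.2 := huP
  have hs20 : ∀ m, 20 ≤ s m := fun m => (hG m).hs
  have hrs : ∀ m, r m < s m := fun m => (hG m).hrs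
  have hr1 : ∀ m, 1 ≤ r m := fun m => (hG m).hr
  have hR : ∀ m, s m ^ (m + 2) ≤ R' m := h5
  have hrR : ∀ m, r (m + 1) = R' m ^ (m + 2) := h6
  have hsr : ∀ m, s m ≤ r (m + 1) := by
    intro m
    have h8 : s m ≤ s m ^ (m + 2) := le_self_pow₀ (by linarith [hs20 m]) (by omega)
    have h9 : 1 ≤ R' m := by linarith [hs20 m, hR m]
    have h10 : R' m ≤ R' m ^ (m + 2) := le_self_pow₀ h9 (by omega)
    rw [hrR]
    linarith [hR m]
  have hmono : Monotone r := monotone_nat_of_le_succ fun m => ((hrs m).le.trans (hsr m))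
  have hgrow : ∀ m : ℕ, (m : ℝ) ≤ r m := by
    intro m
    induction m with
    | zero => simpa using (zero_le_one.trans (hr1 0))
    | succ m ih =>
      have h8 : s m + 1 ≤ r (m + 1) := by
        have h9 : 20 ≤ s m := hs20 m
        have h10 : s m ^ 2 ≤ s m ^ (m + 2) := pow_le_pow_right₀ (by linarith) (by omega)
        have h11 : 1 ≤ R' m := by nlinarith [hR m]
        have h12 : R' m ≤ R' m ^ (m + 2) := le_self_pow₀ h11 (by omega)
        rw [hrR]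
        nlinarith [hR m]
      push_cast
      linarith [hrs m]
  have hrt : Tendsto r atTop atTop :=
    tendsto_atTop_mono hgrow tendsto_natCast_atTop_atTop
  have hτ0 : ∀ m, 0 < τ m := h1
  have hτ8 : ∀ m, τ m ≤ 1 / 8 := fun m => (h2 m).trans (hG m).hσ1
  have hτ1 : ∀ m, τ m ≤ 1 := fun m => (hτ8 m).trans (by norm_num)
  have hτ4 : ∀ m, τ (m + 1) ≤ τ m / 4 := fun m => by
    have := h2 (m + 1)
    rwa [h3 m] at this
  obtain ⟨f, hfd, hfc⟩ := limit (F := F) hτ0 hτ1 hτ4 hmono hrt h4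
  have hF0 : F 0 = X := by rw [hF]; simp only [hu0]
  have hr0 : r 0 = 1 := by rw [hr]; simp only [hu0]
  have hf0 : f 0 = 0 := by
    have := hfc 0 0 (by rw [norm_zero]; exact (zero_le_one.trans (hr1 0)))
    rw [hF0, eval_X, norm_zero, mul_zero, sub_zero] at this
    exact norm_le_zero_iff.1 this
  have hf1 : f 1 ≠ 0 := by
    intro h
    have := hfc 0 1 (by rw [norm_one]; exact hr1 0)
    rw [hF0, eval_X, h, zero_sub, norm_neg, norm_one, mul_one] at this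
    linarith [hτ8 0]
  have hfo : IsOpenMap f := open_entire hfd (a := 1) (b := 0) (by rw [hf0]; exact hf1)
  refine ⟨f, r, s, R', hfd, hfo, hf0, fun m => ⟨hr1 m, hrs m, hs20 m, hR m, hrR m⟩, fun m => ?_⟩
  apply h7 m f hfd.continuous hfo (hfc m)
  intro z hz
  refine (hfc (m + 1) z hz).trans ?_
  exact mul_le_mul_of_nonneg_right (hτ4 m) (norm_nonneg _)

end Pool.Agent.V7H51.SC
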