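import Pool.Agent.V7H51.SC.Lem

/-!
One step of the construction.
-/

set_option autoImplicit false

open Filter Topology Metric Set Polynomial

namespace Pool.Agent.V7H51.SC

open Pool.Agent.TH224.SC

/-- iterates of nearby maps are close -/
theorem iter_close {F : ℂ → ℂ} (hF : Continuous F) {r : ℝ} (hr : 0 < r) (m : ℕ) :
    ∀ δ : ℝ, 0 < δ → ∃ τ : ℝ, 0 < τ ∧ ∀ f : ℂ → ℂ, (∀ w, ‖w‖ ≤ r → ‖f w - F w‖ ≤ τ) →
      ∀ z, (∀ i < m, ‖f^[i] z‖ < r / 2) → ‖f^[m] z - F^[m] z‖ ≤ δ := by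
  induction m with
  | zero =>
    intro δ hδ
    exact ⟨1, one_pos, fun f _ z _ => by simpa using hδ.le⟩
  | succ m ih =>
    intro δ hδ
    have huc : UniformContinuousOn F (closedBall (0 : ℂ) r) :=
      (isCompact_closedBall _ _).uniformContinuousOn_of_continuous hF.continuousOn
    rw [Metric.uniformContinuousOn_iff] at huc
    obtain ⟨η, hη, h⟩ := huc (δ / 2) (by positivity)
    have hη' : 0 < min (η / 2) (r / 2) := lt_min (by linarith) (by linarith)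
    obtain ⟨τ, hτ, h'⟩ := ih (min (η / 2) (r / 2)) hη'
    refine ⟨min τ (δ / 2), lt_min hτ (by linarith), fun f hf z hz => ?_⟩
    have h1 := h' f (fun w hw => (hf w hw).trans (min_le_left _ _)) z
      (fun i hi => hz i (by omega))
    have h2 := hz m (by omega)
    rw [Function.iterate_succ_apply', Function.iterate_succ_apply']
    have h3 : ‖F^[m] z‖ ≤ r := by
      have := norm_sub_norm_le (F^[m] z) (f^[m] z)
      rw [norm_sub_rev] at this
      have := min_le_right (η / 2) (r / 2)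
      linarith
    have h4 := h (f^[m] z) (by rw [mem_closedBall_zero_iff]; linarith) (F^[m] z)
      (by rwa [mem_closedBall_zero_iff]) (by
        rw [dist_eq_norm]
        have := min_le_left (η / 2) (r / 2)
        linarith)
    rw [dist_eq_norm] at h4
    have h5 := (hf (f^[m] z) (by linarith)).trans (min_le_right _ _)
    calc ‖f (f^[m] z) - F (F^[m] z)‖ ≤ ‖f (f^[m] z) - F (f^[m] z)‖ +
          ‖F (f^[m] z) - F (F^[m] z)‖ := norm_sub_le_norm_sub_add_norm_sub _ _ _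
      _ ≤ δ := by linarith

/-- iterated composition -/
noncomputable def Gm (F : ℂ[X]) (m : ℕ) : ℂ[X] := (F.comp)^[m] X

theorem Gm_eval (F : ℂ[X]) (m : ℕ) (z : ℂ) : (Gm F m).eval z = (fun x => F.eval x)^[m] z := by
  rw [Gm, iterate_comp_eval, eval_X]

theorem Gm_deg {F : ℂ[X]} (hF : 0 < F.natDegree) (m : ℕ) : 0 < (Gm F m).natDegree := by
  rw [Gm, natDegree_iterate_comp, natDegree_X, mul_one]
  positivity

/-- the state of the construction -/
structure Good (m : ℕ) (F : ℂ[X]) (r s σ : ℝ) : Prop where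
  hF0 : F.eval 0 = 0
  hdeg : 0 < F.natDegree
  hzero : ∀ z, F.eval z = 0 → ‖z‖ < r
  hr : 1 ≤ r
  hrs : r < s
  hs : 20 ≤ s
  hσ : 0 < σ
  hσ1 : σ ≤ 1 / 8

/-- what the limit function satisfies at stage `m` -/
structure StageProps (m : ℕ) (r s r' s' R' : ℝ) (f : ℂ → ℂ) : Prop where
  up : ∀ z, ‖z‖ ≤ r → ‖f z‖ ≤ R'
  low1 : ∀ z, s ≤ ‖z‖ → ‖z‖ ≤ r' → s' < ‖f z‖
  low2 : ∀ z, s ^ 2 ≤ ‖z‖ → ‖z‖ ≤ r' → s' ^ 2 < ‖f z‖
  low3 : ∀ z, s ^ (m + 2) ≤ ‖z‖ → ‖z‖ ≤ r' → s' ^ (m + 3) ≤ ‖f z‖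
  lam : ∃ Λ : Bool → Set ℂ, (∀ b, IsClosed (Λ b)) ∧ Disjoint (Λ false) (Λ true) ∧
    (∀ z, ‖z‖ ≤ s → ‖f z‖ ≤ s' → ∃ b, z ∈ Λ b) ∧
    (∀ b y, ‖y‖ ≤ s' → ∃ w ∈ Λ b, ‖w‖ ≤ s ∧ f w = y) ∧
    ∀ P : Set ℂ, IsPreconnected P → (∀ z ∈ P, ∀ i < m, ‖f^[i] z‖ < r / 2) →
      (∀ z ∈ P, f^[m] z ∈ Λ true) → ∀ x ∈ P, ∀ y ∈ P, ‖x - y‖ ≤ 1 / 2 ^ m

/-- growth of the lower bounds -/
theorem ev_low {c M : ℝ} (hc : 0 < c) (hM : 0 < M) (a : ℕ) :
    ∀ᶠ j : ℕ in atTop, 2 * (4 * M * (1 + 2 ^ j)) ^ a ≤ c * ((2 ^ (a + 1)) ^ j - 1) := by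
  have h1 : Tendsto (fun j : ℕ => (2 : ℝ) ^ j) atTop atTop :=
    tendsto_pow_atTop_atTop_of_one_lt (by norm_num)
  filter_upwards [h1.eventually_ge_atTop (4 * (8 * M) ^ a / c), eventually_ge_atTop 1] with j hj hj1
  rw [div_le_iff₀ hc] at hj
  have h2 : (1 : ℝ) ≤ 2 ^ j := one_le_pow₀ (by norm_num)
  have h2' : (2 : ℝ) ≤ 2 ^ j := by
    calc (2 : ℝ) = 2 ^ 1 := (pow_one _).symm
      _ ≤ 2 ^ j := pow_le_pow_right₀ (by norm_num) hj1
  have h3 : ((2 : ℝ) ^ (a + 1)) ^ j = (2 ^ j) ^ a * 2 ^ j := by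
    rw [← pow_mul, ← pow_mul, ← pow_add]
    congr 1
    ring
  have h4 : (1 : ℝ) ≤ (2 ^ j) ^ a := one_le_pow₀ h2
  rw [h3]
  have h6 : 4 * M * (1 + 2 ^ j) ≤ 8 * M * 2 ^ j := by nlinarith
  calc 2 * (4 * M * (1 + 2 ^ j)) ^ a ≤ 2 * (8 * M * 2 ^ j) ^ a :=
        mul_le_mul_of_nonneg_left (pow_le_pow_left₀ (by positivity) h6 a) (by norm_num)
    _ = (4 * (8 * M) ^ a) * (2 ^ j) ^ a / 2 := by rw [mul_pow]; ring
    _ ≤ (2 ^ j * c) * (2 ^ j) ^ a / 2 := by gcongr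
    _ ≤ c * ((2 ^ j) ^ a * 2 ^ j - 1) := by
        have h5 : (2 : ℝ) ≤ (2 ^ j) ^ a * 2 ^ j := by nlinarith
        nlinarith

theorem exists_bound (F : ℂ[X]) (s : ℝ) : ∃ M : ℝ, 1 ≤ M ∧ ∀ z : ℂ, ‖z‖ ≤ s → ‖F.eval z‖ ≤ M := by
  obtain ⟨M, hM⟩ := ((isCompact_closedBall (0 : ℂ) s).image F.continuous.norm).bddAbove
  exact ⟨max M 1, le_max_right _ _, fun z hz =>
    (hM ⟨z, by rwa [mem_closedBall_zero_iff], rfl⟩).trans (le_max_left _ _)⟩

theorem exists_lower {F : ℂ[X]} (hF : 0 < F.natDegree) {r : ℝ}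
    (hz : ∀ z, F.eval z = 0 → ‖z‖ < r) : ∃ c : ℝ, 0 < c ∧ ∀ z : ℂ, r ≤ ‖z‖ → c ≤ ‖F.eval z‖ := by
  obtain ⟨T, hT, hlarge⟩ := exists_large hF 1
  set A : Set ℂ := closedBall 0 T ∩ {z | r ≤ ‖z‖} with hA
  have hAc : IsCompact A := (isCompact_closedBall _ _).inter_right
    (isClosed_le continuous_const continuous_norm)
  rcases A.eq_empty_or_nonempty with h | h
  · refine ⟨1, one_pos, fun z hz => ?_⟩
    by_contra hcon
    have h1 : ‖z‖ ≤ T := by
      by_contra h2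
      push Not at h2
      linarith [hlarge z h2.le]
    have : z ∈ A := ⟨by rwa [mem_closedBall_zero_iff], hz⟩
    rw [h] at this
    exact this
  · obtain ⟨z₀, hz₀, hmin⟩ := hAc.exists_isMinOn h (f := fun z => ‖F.eval z‖)
      F.continuous.norm.continuousOn
    have hpos : 0 < ‖F.eval z₀‖ := by
      rw [norm_pos_iff]
      intro h0
      have := hz z₀ h0
      have := hz₀.2
      simp only [Set.mem_ofPred_eq] at this
      linarith
    refine ⟨min ‖F.eval z₀‖ 1, lt_min hpos one_pos, fun z hz => ?_⟩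
    by_cases h1 : ‖z‖ ≤ T
    · exact (min_le_left _ _).trans (hmin ⟨by rwa [mem_closedBall_zero_iff], hz⟩)
    · push Not at h1
      exact (min_le_right _ _).trans (hlarge z h1.le).le

theorem iter_open {f : ℂ → ℂ} (hf : IsOpenMap f) (m : ℕ) : IsOpenMap f^[m] := by
  induction m with
  | zero => exact IsOpenMap.id
  | succ m ih =>
    rw [Function.iterate_succ']
    exact hf.comp ih

theorem step (m : ℕ) {F : ℂ[X]} {r s σ : ℝ} (h : Good m F r s σ) :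
    ∃ (τ R' r' s' : ℝ) (F' : ℂ[X]), 0 < τ ∧ τ ≤ σ ∧
      (∀ z : ℂ, ‖z‖ ≤ r → ‖F'.eval z - F.eval z‖ ≤ τ / 4 * ‖F.eval z‖) ∧
      Good (m + 1) F' r' s' (τ / 4) ∧ s ^ (m + 2) ≤ R' ∧ r' = R' ^ (m + 2) ∧
      ∀ f : ℂ → ℂ, Continuous f → IsOpenMap f →
        (∀ z : ℂ, ‖z‖ ≤ r → ‖f z - F.eval z‖ ≤ τ * ‖F.eval z‖) →
        (∀ z : ℂ, ‖z‖ ≤ r' → ‖f z - F'.eval z‖ ≤ τ / 4 * ‖F'.eval z‖) →
        StageProps m r s r' s' R' f := by
  have hs20 := h.hs
  have hr1 := h.hr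
  have hrs := h.hrs
  have hs0 : 0 < s := by linarith
  have hr0 : 0 < r := by linarith
  have hG : 0 < (Gm F m).natDegree := Gm_deg h.hdeg m
  obtain ⟨ε, hε0, hsmall⟩ := small_comp hG (η := 1 / 2 ^ m) (by positivity)
  set ρ : ℝ := (r + s) / 2 with hρ
  have hrρ : r < ρ := by rw [hρ]; linarith
  have hρs : ρ < s := by rw [hρ]; linarith
  have hρ0 : 0 < ρ := by linarith
  obtain ⟨L, e, hLdeg, hL1, hL2, hL3, hL4, hL7, hL8⟩ :=
    exists_lem hρ0 hρs (ε := ε / 2) (by linarith)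
  have hL7' : ∀ b, ‖L.eval (e b)‖ ≤ 1 := fun b => by rw [hL7]; simp
  have hLs : ∀ z : ℂ, s ≤ ‖z‖ → 4 < ‖L.eval z‖ := fun z hz => (hL2 z hz).1
  have hin : ∀ z : ℂ, ‖L.eval z‖ ≤ 4 → ‖z‖ < s := by
    intro z hz
    by_contra hcon
    push Not at hcon
    linarith [hLs z hcon]
  set δ : ℝ := ε / 2 with hδ
  have hδ0 : 0 < δ := by rw [hδ]; linarith
  obtain ⟨τ₁, hτ₁, hclose⟩ := iter_close F.continuous hr0 m δ hδ0
  obtain ⟨M, hM1, hM⟩ := exists_bound F s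
  have hM0 : 0 < M := by linarith
  obtain ⟨c, hc0, hc⟩ := exists_lower h.hdeg h.hzero
  set τ : ℝ := min σ (τ₁ / M) with hτ
  have hτ0 : 0 < τ := lt_min h.hσ (by positivity)
  have hτσ : τ ≤ σ := min_le_left _ _
  have hτ8 : τ ≤ 1 / 8 := hτσ.trans h.hσ1
  have hτM : τ * M ≤ τ₁ := by
    calc τ * M ≤ τ₁ / M * M := by gcongr; exact min_le_right _ _
      _ = τ₁ := by field_simp
  set R' : ℝ := 2 * M + s ^ (m + 2) with hR'
  have hspow : s ≤ s ^ (m + 2) := le_self_pow₀ (by linarith) (by omega)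
  have hR's : s ^ (m + 2) ≤ R' := by rw [hR']; linarith
  have hR'1 : 1 ≤ R' := by linarith
  set r' : ℝ := R' ^ (m + 2) with hr'
  have hR'r' : R' ≤ r' := le_self_pow₀ hR'1 (by omega)
  have hsr' : s < r' := by
    have : s < R' := by rw [hR']; linarith
    linarith
  -- choice of `j`
  have e1 : ∀ᶠ j : ℕ in atTop, ((1 : ℝ) / 4) ^ j < τ / 4 :=
    (tendsto_pow_atTop_nhds_zero_of_lt_one (by norm_num) (by norm_num)).eventually
      (gt_mem_nhds (by positivity))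
  have e2 : ∀ᶠ j : ℕ in atTop, r' < 2 ^ j :=
    (tendsto_pow_atTop_atTop_of_one_lt (by norm_num)).eventually_gt_atTop _
  obtain ⟨j, hj1, hj2, hj3, hj4, hj5, hj6⟩ := (e1.and (e2.and ((ev_low hc0 hM0 1).and
    ((ev_low hc0 hM0 2).and ((ev_low hc0 hM0 (m + 3)).and (eventually_ge_atTop 1)))))).exists
  have hjne : j ≠ 0 := by omega
  set F' : ℂ[X] := F * (1 + L ^ j) with hF'
  have hF'e : ∀ z, F'.eval z = F.eval z * (1 + L.eval z ^ j) := by
    intro z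
    rw [hF', eval_mul, eval_add, eval_one, eval_pow]
  have hFne : F ≠ 0 := by
    rintro h0
    have := h.hdeg
    rw [h0] at this
    simp at this
  have hL0 : ‖L.eval 0‖ < 1 / 4 := hL1 0 (by rw [norm_zero]; exact hρ0.le)
  have h1Lne : (1 + L ^ j) ≠ 0 := by
    intro h0
    have h2 : (1 + L ^ j).eval 0 = 0 := by rw [h0]; simp
    rw [eval_add, eval_one, eval_pow] at h2
    have h3 : L.eval 0 ^ j = -1 := by linear_combination h2
    have h4 : ‖L.eval 0‖ ^ j = 1 := by rw [← norm_pow, h3]; simp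
    have h5 : ‖L.eval 0‖ ^ j < 1 := pow_lt_one₀ (norm_nonneg _) (by linarith) hjne
    linarith
  have hF'deg : 0 < F'.natDegree := by
    rw [hF', natDegree_mul hFne h1Lne]
    have := h.hdeg
    omega
  -- zeros of `F'`
  have hzF' : ∀ z, F'.eval z = 0 → ‖L.eval z‖ ≤ 1 := by
    intro z hz
    rw [hF'e, mul_eq_zero] at hz
    rcases hz with hz | hz
    · have := h.hzero z hz
      have := hL1 z (by linarith)
      linarith
    · have h3 : L.eval z ^ j = -1 := by linear_combination hz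
      have h4 : ‖L.eval z‖ ^ j = 1 := by rw [← norm_pow, h3]; simp
      exact ((pow_eq_one_iff_of_nonneg (norm_nonneg _) hjne).1 h4).le
  -- choice of `s'`
  have h2j : (1 : ℝ) ≤ 2 ^ j := one_le_pow₀ (by norm_num)
  have hlt : 2 * M * (1 + 2 ^ j) < 4 * M * (1 + 2 ^ j) := by nlinarith
  obtain ⟨s', hs'1, hs'2⟩ : ∃ s', 2 * M * (1 + 2 ^ j) < s' ∧ s' < 4 * M * (1 + 2 ^ j) :=
    exists_between hlt
  have hr's' : r' < s' := by nlinarith
  have hs'0 : 0 < s' := by linarith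
  -- lower bounds for `f`
  have hlow : ∀ a : ℕ, 2 * (4 * M * (1 + 2 ^ j)) ^ a ≤ c * ((2 ^ (a + 1)) ^ j - 1) →
      ∀ f : ℂ → ℂ, (∀ z : ℂ, ‖z‖ ≤ r' → ‖f z - F'.eval z‖ ≤ τ / 4 * ‖F'.eval z‖) →
      ∀ z : ℂ, r ≤ ‖z‖ → ‖z‖ ≤ r' → 2 ^ (a + 1) ≤ ‖L.eval z‖ → s' ^ a < ‖f z‖ := by
    intro a ha f hf z hz1 hz2 hz3
    have h1 : c * ((2 ^ (a + 1)) ^ j - 1) ≤ ‖F'.eval z‖ := by
      rw [hF'e, norm_mul]
      have h3 : ‖L.eval z‖ ^ j - 1 ≤ ‖1 + L.eval z ^ j‖ := by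
        have := norm_sub_norm_le (L.eval z ^ j) (-1)
        rw [norm_neg, norm_one, norm_pow, sub_neg_eq_add, add_comm] at this
        exact this
      have h4 : ((2 : ℝ) ^ (a + 1)) ^ j ≤ ‖L.eval z‖ ^ j := pow_le_pow_left₀ (by positivity) hz3 j
      have h5 : (1 : ℝ) ≤ (2 ^ (a + 1)) ^ j := one_le_pow₀ (one_le_pow₀ (by norm_num))
      exact mul_le_mul (hc z hz1) (by linarith) (by linarith) (norm_nonneg _)
    have h2 : s' ^ a ≤ (4 * M * (1 + 2 ^ j)) ^ a := pow_le_pow_left₀ hs'0.le hs'2.le a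
    have h3 := hf z hz2
    have h4 := norm_sub_norm_le (F'.eval z) (f z)
    rw [norm_sub_rev] at h4
    have h5 : 0 < s' ^ a := by positivity
    have h6 : τ / 4 * ‖F'.eval z‖ ≤ 1 / 32 * ‖F'.eval z‖ :=
      mul_le_mul_of_nonneg_right (by linarith) (norm_nonneg _)
    linarith
  refine ⟨τ, R', r', s', F', hτ0, hτσ, ?_, ?_, hR's, rfl, ?_⟩
  · intro z hz
    rw [hF'e]
    have h1 : F.eval z * (1 + L.eval z ^ j) - F.eval z = L.eval z ^ j * F.eval z := by ring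
    rw [h1, norm_mul, norm_pow]
    have h2 := hL1 z (by linarith)
    have h3 : ‖L.eval z‖ ^ j ≤ (1 / 4) ^ j := pow_le_pow_left₀ (norm_nonneg _) h2.le j
    gcongr
    linarith
  · refine ⟨?_, hF'deg, ?_, by linarith, hr's', by linarith, by positivity, by linarith⟩
    · rw [hF'e, h.hF0, zero_mul]
    · intro z hz
      have h1 := hin z ((hzF' z hz).trans (by norm_num))
      linarith
  intro f hf hfo hf1 hf2
  have hlow1 : ∀ z, r ≤ ‖z‖ → ‖z‖ ≤ r' → 4 ≤ ‖L.eval z‖ → s' < ‖f z‖ := by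
    intro z h1 h2 h3
    have := hlow 1 hj3 f hf2 z h1 h2 (by norm_num; exact h3)
    rwa [pow_one] at this
  have hlows : ∀ z : ℂ, s ≤ ‖z‖ → ‖z‖ ≤ r' → s' < ‖f z‖ := fun z h1 h2 =>
    hlow1 z (by linarith) h2 (hLs z h1).le
  have hsmallL : ∀ z : ℂ, ‖z‖ ≤ s → ‖f z‖ ≤ s' → ‖L.eval z‖ ≤ 4 := by
    intro z h1 h2
    by_contra hcon
    push Not at hcon
    have h3 : r ≤ ‖z‖ := by
      by_contra h4
      push Not at h4
      have := hL1 z (by linarith)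
      linarith
    have := hlow1 z h3 (by linarith) hcon.le
    linarith
  have hf20 : ∀ z : ℂ, ‖z‖ ≤ r' → f z = 0 → F'.eval z = 0 := by
    intro z hz hz0
    have h1 := hf2 z hz
    rw [hz0, zero_sub, norm_neg] at h1
    have h2 : ‖F'.eval z‖ ≤ 0 := by
      have h3 : τ / 4 * ‖F'.eval z‖ ≤ 1 / 2 * ‖F'.eval z‖ :=
        mul_le_mul_of_nonneg_right (by linarith) (norm_nonneg _)
      linarith
    exact norm_le_zero_iff.1 h2
  have hf21 : ∀ z : ℂ, ‖z‖ ≤ r' → F'.eval z = 0 → f z = 0 := by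
    intro z hz hz0
    have h1 := hf2 z hz
    rw [hz0, norm_zero, mul_zero, sub_zero] at h1
    exact norm_le_zero_iff.1 h1
  have hfL : ∀ z : ℂ, ‖L.eval z‖ ≤ 2 → ‖f z‖ ≤ s' := by
    intro z hz
    have h1 := hin z (by linarith)
    have h2 := hf2 z (by linarith)
    have h3 : ‖F'.eval z‖ ≤ M * (1 + 2 ^ j) := by
      rw [hF'e, norm_mul]
      gcongr
      · exact hM z h1.le
      · calc ‖1 + L.eval z ^ j‖ ≤ ‖(1 : ℂ)‖ + ‖L.eval z ^ j‖ := norm_add_le _ _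
          _ ≤ 1 + 2 ^ j := by
            rw [norm_one, norm_pow]
            gcongr
    have h4 := norm_sub_norm_le (f z) (F'.eval z)
    have h5 : τ / 4 * ‖F'.eval z‖ ≤ 1 * ‖F'.eval z‖ :=
      mul_le_mul_of_nonneg_right (by linarith) (norm_nonneg _)
    linarith
  have hfrs : ∀ z ∈ frontier (ball (0 : ℂ) s), s' < ‖f z‖ := by
    intro z hz
    have h5 : z ∈ sphere (0 : ℂ) s := frontier_ball_subset_sphere hz
    rw [mem_sphere_zero_iff_norm] at h5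
    exact hlows z h5.ge (by linarith)
  refine ⟨?_, hlows, ?_, ?_, ?_⟩
  · intro z hz
    have h1 := hf1 z hz
    have h2 := hM z (by linarith)
    have h3 := norm_sub_norm_le (f z) (F.eval z)
    have h4 : τ * ‖F.eval z‖ ≤ 1 * ‖F.eval z‖ :=
      mul_le_mul_of_nonneg_right (by linarith) (norm_nonneg _)
    have h5 : 0 ≤ s ^ (m + 2) := by positivity
    rw [hR']
    linarith
  · intro z h1 h2
    have hss : s ≤ s ^ 2 := by nlinarith
    apply hlow 2 hj4 f hf2 z (by linarith) h2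
    have h3 := (hL2 z (by linarith)).2
    have h4 : (19 : ℝ) / 2 ≤ (‖z‖ - s) / (2 * s) := by
      rw [le_div_iff₀ (by positivity)]
      nlinarith
    norm_num
    linarith
  · intro z h1 h2
    refine (hlow (m + 3) hj5 f hf2 z (by linarith) h2 ?_).le
    have h3 := (hL2 z (by linarith)).2
    have h20 : (20 : ℝ) ^ (m + 1) ≤ s ^ (m + 1) := pow_le_pow_left₀ (by norm_num) hs20 _
    have h10 : (20 : ℝ) ^ (m + 1) = 10 ^ (m + 1) * 2 ^ (m + 1) := by rw [← mul_pow]; norm_num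
    have h10' : (10 : ℝ) ≤ 10 ^ (m + 1) := le_self_pow₀ (by norm_num) (by omega)
    have h2' : (1 : ℝ) ≤ 2 ^ (m + 1) := one_le_pow₀ (by norm_num)
    have h5 : 10 * 2 ^ (m + 1) ≤ s ^ (m + 1) := by
      calc 10 * (2 : ℝ) ^ (m + 1) ≤ 10 ^ (m + 1) * 2 ^ (m + 1) := by gcongr
        _ ≤ s ^ (m + 1) := by rw [← h10]; exact h20
    have h4 : (s ^ (m + 1) - 1) / 2 ≤ (‖z‖ - s) / (2 * s) := by
      rw [le_div_iff₀ (by positivity)]
      have : s ^ (m + 2) = s ^ (m + 1) * s := pow_succ _ _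
      rw [this] at h1
      nlinarith
    have h6 : (2 : ℝ) ^ (m + 3 + 1) = 8 * 2 ^ (m + 1) := by
      rw [show m + 3 + 1 = (m + 1) + 3 by ring, pow_add]; ring
    rw [h6]
    linarith
  · refine ⟨fun b => Vc (fun z => L.eval z) 4 (e b), fun b => Vc_closed L.continuous _ _, hL4,
      fun z h1 h2 => hL3 4 (by norm_num) le_rfl z (hsmallL z h1 h2), ?_, ?_⟩
    swap
    · intro P hP hPi hPm x hx y hy
      apply hsmall (e true) P hP _ x hx y hy
      intro z hz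
      have h1 : ‖f^[m] z - (Gm F m).eval z‖ ≤ δ := by
        rw [Gm_eval]
        apply hclose f _ z (hPi z hz)
        intro w hw
        calc ‖f w - F.eval w‖ ≤ τ * ‖F.eval w‖ := hf1 w hw
          _ ≤ τ * M := by gcongr; exact hM w (by linarith)
          _ ≤ τ₁ := hτM
      have h2 : ‖f^[m] z - e true‖ ≤ δ := by
        have := hL8 (hPm z hz)
        rwa [mem_closedBall, dist_eq_norm] at this
      calc ‖(Gm F m).eval z - e true‖ ≤ ‖(Gm F m).eval z - f^[m] z‖ + ‖f^[m] z - e true‖ :=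
            norm_sub_le_norm_sub_add_norm_sub _ _ _
        _ ≤ δ + δ := by rw [norm_sub_rev]; linarith
        _ = ε := by rw [hδ]; ring
    intro b y hy
    have heb : ‖L.eval (e b)‖ ≤ 1 := hL7' b
    obtain ⟨hVN, honto⟩ := Vc_onto (G := fun z => L.eval z) L.continuous (open_poly hLdeg)
      (isOpen_ball (x := (0 : ℂ)) (ε := s)) isBounded_ball (s := 1) (a := e b) (by
        intro w hw
        have h5 : w ∈ sphere (0 : ℂ) s := frontier_ball_subset_sphere hw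
        rw [mem_sphere_zero_iff_norm] at h5
        have := hLs w h5.ge
        linarith) (by rw [mem_ball_zero_iff]; exact hin _ (heb.trans (by norm_num))) heb
    obtain ⟨ζ, hζ1, hζ2⟩ : ∃ ζ : ℂ, ‖ζ‖ ≤ 1 ∧ ζ ^ j = -1 := by
      refine ⟨Complex.exp ((Real.pi / j : ℝ) * Complex.I), ?_, ?_⟩
      · rw [Complex.norm_exp_ofReal_mul_I]
      · rw [← Complex.exp_nat_mul]
        have : (j : ℂ) * (((Real.pi / j : ℝ) : ℂ) * Complex.I) = Real.pi * Complex.I := by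
          have hj' : (j : ℂ) ≠ 0 := by exact_mod_cast hjne
          push_cast
          field_simp
        rw [this, Complex.exp_pi_mul_I]
    obtain ⟨w, hw, hwζ⟩ := honto ζ hζ1
    have hwζ : L.eval w = ζ := hwζ
    have hws : ‖w‖ < s := by
      have := hVN hw
      rwa [mem_ball_zero_iff] at this
    have hfw : f w = 0 := by
      apply hf21 w (by linarith)
      rw [hF'e, hwζ, hζ2]
      ring
    obtain ⟨hVN2, honto2⟩ := Vc_onto hf hfo (isOpen_ball (x := (0 : ℂ)) (ε := s)) isBounded_ball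
      (s := s') (a := w) hfrs (by rwa [mem_ball_zero_iff]) (by rw [hfw, norm_zero]; exact hs'0.le)
    obtain ⟨v, hv, hvy⟩ := honto2 y hy
    have hvs : ‖v‖ < s := by
      have := hVN2 hv
      rwa [mem_ball_zero_iff] at this
    refine ⟨v, ?_, hvs.le, hvy⟩
    have h1 : w ∈ Vc (fun z => L.eval z) 4 (e b) := by
      apply sub_Vc (Vc_pre _ 1 (e b)) (mem_Vc heb) _ hw
      intro z hz
      exact (Vc_sub hz).trans (by norm_num)
    show v ∈ Vc (fun z => L.eval z) 4 (e b)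
    rw [Vc_eq h1]
    apply sub_Vc (Vc_pre f s' w) (mem_Vc (by rw [hfw, norm_zero]; exact hs'0.le)) _ hv
    intro z hz
    have h5 := hVN2 hz
    rw [mem_ball_zero_iff] at h5
    exact hsmallL z h5.le (Vc_sub hz)

end Pool.Agent.V7H51.SC
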